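import Pool.Agent.H63.UD.Circ

/-!
# The number of nodes
-/

set_option autoImplicit false
set_option linter.unusedSectionVars false

namespace Pool.Agent.H63.UD

open Pool.Agent.H63.YL Pool.Agent.H63.UB Finset

variable (n g K : ℕ)

open Classical in
/-- a set which contains all good nodes -/
noncomputable def cover : ℕ → Finset (Nd n g K)
  | 0 => (univ : Finset (Fin (n + 1) × Fin n)).image fun y => .var y.1 y.2
  | 1 => {.top}
  | 2 => (univ : Finset (Fin (n + 1))).image fun y => .pg y
  | 3 => (univ : Finset (Fin n)).image fun y => .hl y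
  | 4 => ((univ : Finset (Fin (K * K))) ×ˢ range (n + 2) ×ˢ range (n + 1) ×ˢ range (g * g) ×ˢ
      range (n + 2) ×ˢ range (n + 2)).image
        fun y => .pp y.1 y.2.1 y.2.2.1 y.2.2.2.1 y.2.2.2.2.1 y.2.2.2.2.2
  | 5 => ((univ : Finset (Fin (K * K))) ×ˢ range (n + 2) ×ˢ range (n + 1) ×ˢ range (g * g + 1) ×ˢ
      range (n + 2)).image fun y => .ds y.1 y.2.1 y.2.2.1 y.2.2.2.1 y.2.2.2.2
  | 6 => (range (n + 2) ×ˢ range (n + 1) ×ˢ
      Fintype.piFinset (fun _ : Fin (K * K) => range (n + 2))).image
        fun y => .an y.1 y.2.1 y.2.2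
  | _ => (range (n + 2) ×ˢ range (n + 1) ×ˢ range (n + 2)).image fun y => .sm y.1 y.2.1 y.2.2

variable {n g K}

theorem good_cover {a : Nd n g K} (ha : Good a) : ∃ i < 8, a ∈ cover n g K i := by
  classical
  cases a with
  | var x y => exact ⟨0, by norm_num, mem_image.2 ⟨(x, y), mem_univ _, rfl⟩⟩
  | top => exact ⟨1, by norm_num, mem_singleton_self _⟩
  | pg x => exact ⟨2, by norm_num, mem_image.2 ⟨x, mem_univ _, rfl⟩⟩
  | hl y => exact ⟨3, by norm_num, mem_image.2 ⟨y, mem_univ _, rfl⟩⟩
  | pp e s s' r a b =>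
    obtain ⟨h1, h2, h3, h4, h5⟩ := ha
    refine ⟨4, by norm_num, mem_image.2 ⟨(e, s, s', r, a, b), ?_, rfl⟩⟩
    simp only [mem_product, mem_univ, mem_range, true_and]
    omega
  | ds e s s' r l =>
    obtain ⟨h1, h2, h3, h4⟩ := ha
    refine ⟨5, by norm_num, mem_image.2 ⟨(e, s, s', r, l), ?_, rfl⟩⟩
    simp only [mem_product, mem_univ, mem_range, true_and]
    omega
  | an s s' v =>
    obtain ⟨h1, h2, h3⟩ := ha
    refine ⟨6, by norm_num, mem_image.2 ⟨(s, s', v), ?_, rfl⟩⟩
    simp only [mem_product, Fintype.mem_piFinset, mem_range]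
    exact ⟨by omega, by omega, fun e => by have := h3 e; omega⟩
  | sm s s' l =>
    obtain ⟨h1, h2, h3⟩ := ha
    refine ⟨7, by norm_num, mem_image.2 ⟨(s, s', l), ?_, rfl⟩⟩
    simp only [mem_product, mem_range]
    omega

theorem finite_good (n g K : ℕ) : Finite {a : Nd n g K // Good a} := by
  classical
  have h1 : {a : Nd n g K | Good a} ⊆
      (((range 8).biUnion (cover n g K) : Finset (Nd n g K)) : Set (Nd n g K)) := by
    intro a ha
    obtain ⟨i, hi8, hi⟩ := good_cover ha
    exact mem_biUnion.2 ⟨i, mem_range.2 hi8, hi⟩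
  exact (Set.Finite.subset (finite_toSet _) h1).to_subtype

theorem card_cover {B : ℕ} (hB : B = n + 2) (hg : g ≤ n) (hK : K ≤ n) (i : ℕ) (hi : i < 8) :
    (cover n g K i).card ≤ B ^ (K * K + 9) := by
  classical
  have hB2 : 2 ≤ B := by omega
  have hBp : ∀ {i j : ℕ}, i ≤ j → B ^ i ≤ B ^ j := fun h => Nat.pow_le_pow_right (by omega) h
  have hfin : ∀ j, j ≤ 9 → B ^ j ≤ B ^ (K * K + 9) := fun j hj => hBp (by omega)
  interval_cases i
  · refine card_image_le.trans ?_
    rw [card_univ, Fintype.card_prod, Fintype.card_fin, Fintype.card_fin]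
    calc (n + 1) * n ≤ B * B := Nat.mul_le_mul (by omega) (by omega)
      _ = B ^ 2 := (pow_two B).symm
      _ ≤ _ := hfin 2 (by norm_num)
  · show (({Nd.top} : Finset (Nd n g K))).card ≤ _
    rw [card_singleton]
    exact Nat.one_le_pow _ _ (by omega)
  · refine card_image_le.trans ?_
    rw [card_univ, Fintype.card_fin]
    calc n + 1 ≤ B ^ 1 := by rw [pow_one]; omega
      _ ≤ _ := hfin 1 (by norm_num)
  · refine card_image_le.trans ?_
    rw [card_univ, Fintype.card_fin]
    calc n ≤ B ^ 1 := by rw [pow_one]; omega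
      _ ≤ _ := hfin 1 (by norm_num)
  · refine card_image_le.trans ?_
    simp only [card_product, card_range, card_univ, Fintype.card_fin]
    calc K * K * ((n + 2) * ((n + 1) * (g * g * ((n + 2) * (n + 2)))))
        ≤ B * B * (B * (B * (B * B * (B * B)))) :=
          Nat.mul_le_mul (Nat.mul_le_mul (by omega) (by omega)) (Nat.mul_le_mul (by omega)
            (Nat.mul_le_mul (by omega) (Nat.mul_le_mul (Nat.mul_le_mul (by omega) (by omega))
              (Nat.mul_le_mul (by omega) (by omega)))))
      _ = B ^ 8 := by ring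
      _ ≤ _ := hfin 8 (by norm_num)
  · refine card_image_le.trans ?_
    simp only [card_product, card_range, card_univ, Fintype.card_fin]
    have h1 : g * g + 1 ≤ B * B := by
      calc g * g + 1 ≤ n * n + 1 := by
            have := Nat.mul_le_mul hg hg; omega
        _ ≤ B * B := by
            rw [hB]
            have : (n + 2) * (n + 2) = n * n + 4 * n + 4 := by ring
            omega
    calc K * K * ((n + 2) * ((n + 1) * ((g * g + 1) * (n + 2))))
        ≤ B * B * (B * (B * (B * B * B))) :=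
          Nat.mul_le_mul (Nat.mul_le_mul (by omega) (by omega)) (Nat.mul_le_mul (by omega)
            (Nat.mul_le_mul (by omega) (Nat.mul_le_mul h1 (by omega))))
      _ = B ^ 7 := by ring
      _ ≤ _ := hfin 7 (by norm_num)
  · refine card_image_le.trans ?_
    simp only [card_product, card_range, Fintype.card_piFinset, prod_const, card_univ,
      Fintype.card_fin]
    calc (n + 2) * ((n + 1) * (n + 2) ^ (K * K)) ≤ B * (B * B ^ (K * K)) := by
          rw [← hB]
          exact Nat.mul_le_mul_left _ (Nat.mul_le_mul_right _ (by omega))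
      _ = B ^ (K * K + 2) := by ring
      _ ≤ _ := hBp (by omega)
  · refine card_image_le.trans ?_
    simp only [card_product, card_range]
    calc (n + 2) * ((n + 1) * (n + 2)) ≤ B * (B * B) :=
          Nat.mul_le_mul (by omega) (Nat.mul_le_mul (by omega) (by omega))
      _ = B ^ 3 := by ring
      _ ≤ _ := hfin 3 (by norm_num)

theorem card_good (hg : g ≤ n) (hK : K ≤ n) :
    Nat.card {a : Nd n g K // Good a} ≤ (n + 2) ^ (K * K + 12) := by
  classical
  have h1 : {a : Nd n g K | Good a} ⊆
      (((range 8).biUnion (cover n g K) : Finset (Nd n g K)) : Set (Nd n g K)) := by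
    intro a ha
    obtain ⟨i, hi8, hi⟩ := good_cover ha
    exact mem_biUnion.2 ⟨i, mem_range.2 hi8, hi⟩
  have h2 : Nat.card {a : Nd n g K // Good a} = {a : Nd n g K | Good a}.ncard := rfl
  rw [h2]
  refine (Set.ncard_le_ncard h1 (finite_toSet _)).trans ?_
  rw [Set.ncard_coe_finset]
  refine card_biUnion_le.trans ?_
  calc ∑ i ∈ range 8, (cover n g K i).card ≤ ∑ _i ∈ range 8, (n + 2) ^ (K * K + 9) :=
        sum_le_sum fun i hi => card_cover rfl hg hK i (mem_range.1 hi)
    _ = 2 ^ 3 * (n + 2) ^ (K * K + 9) := by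
        rw [sum_const, card_range, smul_eq_mul]; norm_num
    _ ≤ (n + 2) ^ 3 * (n + 2) ^ (K * K + 9) :=
        Nat.mul_le_mul_right _ (Nat.pow_le_pow_left (by omega) _)
    _ = (n + 2) ^ (K * K + 12) := by ring

end Pool.Agent.H63.UD
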