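import Pool.Agent.H63.UD.Mul

/-!
# The circuit which counts with named groups of points
-/

set_option autoImplicit false
set_option linter.unusedSectionVars false

namespace Pool.Agent.H63.UD

open Pool.Agent.H63.YL Pool.Agent.H63.UB

/-- The nodes. The groups of the pigeons and of the holes have `g` points, there are at most `K` of
each; a cell `e < K * K` is a pair of groups. -/
inductive Nd (n g K : ℕ) : Type
  | var (x : Fin (n + 1)) (y : Fin n)
  | top
  | pg (x : Fin (n + 1))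
  | hl (y : Fin n)
  | pp (e : Fin (K * K)) (s s' r a b : ℕ)
  | ds (e : Fin (K * K)) (s s' r l : ℕ)
  | an (s s' : ℕ) (v : Fin (K * K) → ℕ)
  | sm (s s' l : ℕ)

variable {n g K : ℕ}

/-- the pigeon of the pair number `r` of the cell `e` -/
def ea (g K : ℕ) (e : Fin (K * K)) (r : ℕ) : ℕ := (e : ℕ) / K * g + r / g

/-- the hole of the pair number `r` of the cell `e` -/
def eb (g K : ℕ) (e : Fin (K * K)) (r : ℕ) : ℕ := (e : ℕ) % K * g + r % g

/-- the pair number `r` of the cell `e`, if it lies in the region of the stage -/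
def pt (n g K : ℕ) (e : Fin (K * K)) (s s' r : ℕ) : Option (Fin (n + 1) × Fin n) :=
  if h : (ea g K e r < n + 1 ∧ eb g K e r < n) ∧ ea g K e r < s ∧ eb g K e r < s' then
    some (⟨ea g K e r, h.1.1⟩, ⟨eb g K e r, h.1.2⟩) else none

/-- the counter of a pair -/
def prL : Option (Fin (n + 1) × Fin n) → ℕ → Lit (Nd n g K)
  | _, 0 => ⟨.top, true⟩
  | some p, 1 => ⟨.var p.1 p.2, true⟩
  | none, 1 => ⟨.top, false⟩
  | _, _ + 2 => ⟨.top, false⟩

/-- the partial sums -/
def totL (e : Fin (K * K)) (s s' r a : ℕ) : Lit (Nd n g K) :=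
  if r = 0 then (if a = 0 then ⟨.top, true⟩ else ⟨.top, false⟩) else ⟨.ds e s s' r a, false⟩

/-- the labels -/
def gate0 : Nd n g K → Gate (Fin (n + 1)) (Fin n) (Nd n g K)
  | .var x y => .var x y
  | .top => .and ∅
  | .pg x => .and {z | ∃ y, z = ⟨.var x y, false⟩}
  | .hl y => .and {z | ∃ x, z = ⟨.var x y, false⟩}
  | .pp e s s' r a b => .and {z | z = totL e s s' r a ∨ z = prL (pt n g K e s s' r) b}
  | .ds e s s' r l => .and {z | ∃ r' a b, r = r' + 1 ∧ a + b = l ∧ z = ⟨.pp e s s' r' a b, false⟩}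
  | .an s s' v => .and {z | ∃ e, z = totL e s s' (g * g) (v e)}
  | .sm s s' l => .and {z | ∃ v : Fin (K * K) → ℕ, ∑ e, v e = l ∧ z = ⟨.an s s' v, false⟩}

/-- the level of a node -/
def rk : Nd n g K → ℕ
  | .var _ _ => 0
  | .top => 0
  | .pg _ => 1
  | .hl _ => 1
  | .pp _ _ _ r _ _ => 2 * r + 2
  | .ds _ _ _ r _ => 2 * r + 1
  | .an _ _ _ => 2 * (g * g) + 2
  | .sm _ _ _ => 2 * (g * g) + 3

/-- the nodes of the circuit -/
def Good : Nd n g K → Prop
  | .var _ _ => True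
  | .top => True
  | .pg _ => True
  | .hl _ => True
  | .pp _ s s' r a b => s ≤ n + 1 ∧ s' ≤ n ∧ r < g * g ∧ a ≤ n + 1 ∧ b ≤ n + 1
  | .ds _ s s' r l => s ≤ n + 1 ∧ s' ≤ n ∧ r ≤ g * g ∧ l ≤ n + 1
  | .an s s' v => s ≤ n + 1 ∧ s' ≤ n ∧ ∀ e, v e ≤ n + 1
  | .sm s s' l => s ≤ n + 1 ∧ s' ≤ n ∧ l ≤ n + 1

theorem good_totL {e : Fin (K * K)} {s s' r a : ℕ} (h1 : s ≤ n + 1) (h2 : s' ≤ n)
    (h3 : r ≤ g * g) (h4 : a ≤ n + 1) : Good (totL e s s' r a : Lit (Nd n g K)).node := by
  unfold totL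
  split_ifs
  · exact trivial
  · exact trivial
  · exact ⟨h1, h2, h3, h4⟩

theorem rk_totL {e : Fin (K * K)} {s s' r a : ℕ} :
    rk (totL e s s' r a : Lit (Nd n g K)).node ≤ 2 * r + 1 := by
  unfold totL
  split_ifs <;> simp [rk]

theorem good_prL (o : Option (Fin (n + 1) × Fin n)) (b : ℕ) :
    Good (prL o b : Lit (Nd n g K)).node ∧ rk (prL o b : Lit (Nd n g K)).node = 0 := by
  rcases b with _ | _ | b
  · exact ⟨trivial, rfl⟩
  · rcases o with _ | p
    · exact ⟨trivial, rfl⟩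
    · exact ⟨trivial, rfl⟩
  · exact ⟨trivial, rfl⟩

theorem good_child {a : Nd n g K} (ha : Good a) {z : Lit (Nd n g K)}
    (hz : z ∈ (gate0 a).children) : Good z.node ∧ rk z.node < rk a := by
  cases a with
  | var x y => exact absurd hz (Set.notMem_empty _)
  | top => exact absurd hz (Set.notMem_empty _)
  | pg x =>
    obtain ⟨y, rfl⟩ := hz
    exact ⟨trivial, by simp [rk]⟩
  | hl y =>
    obtain ⟨x, rfl⟩ := hz
    exact ⟨trivial, by simp [rk]⟩
  | pp e s s' r a b =>
    obtain ⟨h1, h2, h3, h4, h5⟩ := ha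
    rcases hz with rfl | rfl
    · exact ⟨good_totL h1 h2 h3.le h4, lt_of_le_of_lt rk_totL (by simp [rk])⟩
    · exact ⟨(good_prL _ _).1, by rw [(good_prL _ _).2]; simp [rk]⟩
  | ds e s s' r l =>
    obtain ⟨h1, h2, h3, h4⟩ := ha
    obtain ⟨r', a, b, rfl, rfl, rfl⟩ := hz
    exact ⟨⟨h1, h2, by omega, by omega, by omega⟩, by simp [rk]; omega⟩
  | an s s' v =>
    obtain ⟨h1, h2, h3⟩ := ha
    obtain ⟨e, rfl⟩ := hz
    exact ⟨good_totL h1 h2 le_rfl (h3 e), lt_of_le_of_lt rk_totL (by simp [rk])⟩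
  | sm s s' l =>
    obtain ⟨h1, h2, h3⟩ := ha
    obtain ⟨v, hv, rfl⟩ := hz
    exact ⟨⟨h1, h2, fun e => (le_of_sum hv e).trans h3⟩, by simp [rk]⟩

/-- the restriction of a label to the nodes of the circuit -/
def resG : Gate (Fin (n + 1)) (Fin n) (Nd n g K) →
    Gate (Fin (n + 1)) (Fin n) {a : Nd n g K // Good a}
  | .var x y => .var x y
  | .and S => .and {z | (⟨z.node.1, z.pos⟩ : Lit (Nd n g K)) ∈ S}

/-- **The circuit.** -/
def Cc (n g K : ℕ) [Finite {a : Nd n g K // Good a}] : Circuit (Fin (n + 1)) (Fin n) where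
  N := {a : Nd n g K // Good a}
  gate := fun a => resG (gate0 a.1)
  rank := fun a => rk a.1
  rank_lt := by
    rintro ⟨a, ha⟩ x hx
    have h1 : (⟨x.node.1, x.pos⟩ : Lit (Nd n g K)) ∈ (gate0 a).children := by
      rcases hg : gate0 a with ⟨i, j⟩ | S
      · dsimp only at hx
        rw [hg] at hx
        exact absurd hx (Set.notMem_empty _)
      · dsimp only at hx
        rw [hg] at hx
        exact hx
    exact (good_child ha h1).2

open Classical in
/-- the node of the circuit -/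
noncomputable def mk [Finite {a : Nd n g K // Good a}] (a : Nd n g K) : (Cc n g K).N :=
  if h : Good a then (⟨a, h⟩ : {a : Nd n g K // Good a})
    else (⟨.top, trivial⟩ : {a : Nd n g K // Good a})

theorem mk_good [Finite {a : Nd n g K // Good a}] {a : Nd n g K} (h : Good a) :
    mk a = (⟨a, h⟩ : {a : Nd n g K // Good a}) := dif_pos h

/-- the same for signed nodes -/
noncomputable def mkL [Finite {a : Nd n g K // Good a}] (x : Lit (Nd n g K)) :
    Lit (Cc n g K).N := ⟨mk x.node, x.pos⟩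

theorem gate_mk [Finite {a : Nd n g K // Good a}] {a : Nd n g K} (h : Good a)
    {S : Set (Lit (Nd n g K))} (hg : gate0 a = .and S) :
    (Cc n g K).gate (mk a) = .and (mkL '' S) := by
  have hS : ∀ x ∈ S, Good x.node := by
    intro x hx
    exact (good_child h (z := x) (by rw [hg]; exact hx)).1
  rw [mk_good h]
  show resG (gate0 a) = _
  rw [hg]
  show Gate.and _ = Gate.and _
  congr 1
  ext z
  constructor
  · intro hz
    refine ⟨_, hz, ?_⟩
    rcases z with ⟨⟨b, hb⟩, p⟩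
    show (⟨mk b, p⟩ : Lit (Cc n g K).N) = _
    rw [mk_good hb]
    rfl
  · rintro ⟨x, hx, rfl⟩
    show (⟨(show {a : Nd n g K // Good a} from mk x.node).1, x.pos⟩ : Lit (Nd n g K)) ∈ S
    rw [mk_good (hS x hx)]
    exact hx

theorem gate_mk_var [Finite {a : Nd n g K // Good a}] (x : Fin (n + 1)) (y : Fin n) :
    (Cc n g K).gate (mk (.var x y : Nd n g K)) = .var x y := by
  rw [mk_good (a := (.var x y : Nd n g K)) trivial]
  rfl

end Pool.Agent.H63.UD
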