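import Pool.Agent.H63.UB.Sum

/-!
# Sums of many counters
-/

set_option autoImplicit false
set_option linter.unusedSectionVars false

namespace Pool.Agent.H63.UD

open Pool.Agent.H63.YL Pool.Agent.H63.UB Finset

variable {P H : Type} {C : Circuit P H} {M R : ℕ}

/-- `t` counts the sum of the counters `c e` -/
structure IsMul (C : Circuit P H) (M R : ℕ) (c : Fin R → ℕ → Lit C.N) (t : ℕ → Lit C.N) where
  /-- the conjunctions -/
  an : (Fin R → ℕ) → C.N
  an_gate : ∀ v, (∀ e, v e ≤ M) → C.gate (an v) = .and {z | ∃ e, z = c e (v e)}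
  t_gate : ∀ T ≤ M, ∃ a, t T = ⟨a, false⟩ ∧
    C.gate a = .and {z | ∃ v : Fin R → ℕ, ∑ e, v e = T ∧ z = ⟨an v, false⟩}
  ctr : ∀ e, IsCtr C M (c e)

variable {c d : Fin R → ℕ → Lit C.N} {t u : ℕ → Lit C.N} {s : List (Lit C.N)}

theorem le_of_sum {v : Fin R → ℕ} {T : ℕ} (h : ∑ e, v e = T) (e : Fin R) : v e ≤ T := by
  rw [← h]
  exact single_le_sum (f := v) (fun _ _ => Nat.zero_le _) (mem_univ e)

theorem IsMul.elim (h : IsMul C M R c t) {T : ℕ} (hT : T ≤ M) {s : List (Lit C.N)}
    (hs : s.length ≤ 20)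
    (hyp : ∀ v : Fin R → ℕ, ∑ e, v e = T → Pv C (⟨h.an v, false⟩ :: s)) :
    Pv C ((t T).neg :: s) := by
  obtain ⟨a, ha, hg⟩ := h.t_gate T hT
  rw [ha]
  refine Pv.andI hg ?_ (by simp [W]; omega)
  rintro _ ⟨v, hv, rfl⟩
  exact hyp v hv

theorem IsMul.intro (h : IsMul C M R c t) {v : Fin R → ℕ} (hv : ∑ e, v e ≤ M) :
    Pv C [⟨h.an v, false⟩, t (∑ e, v e)] := by
  obtain ⟨a, ha, hg⟩ := h.t_gate _ hv
  rw [ha]
  refine (Pv.andE hg ⟨v, rfl, rfl⟩).one' (by simp [W]) fun α => ?_
  simp
  tauto

theorem IsMul.anE (h : IsMul C M R c t) {v : Fin R → ℕ} (hv : ∀ e, v e ≤ M) (e : Fin R) :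
    Pv C [⟨h.an v, false⟩, c e (v e)] :=
  Pv.andE (h.an_gate v hv) ⟨e, rfl⟩

theorem sum_update (v : Fin R → ℕ) (e : Fin R) (b : ℕ) :
    ∑ i, Function.update v e b i + v e = ∑ i, v i + b := by
  rw [sum_update_of_mem (mem_univ e), ← add_sum_erase univ v (mem_univ e)]
  have : univ \ {e} = univ.erase e := sdiff_singleton_eq_erase e univ
  rw [this]
  omega

theorem IsMul.zero (h : IsMul C M R c t) : Pv C [t 0] := by
  have h1 := h.intro (v := fun _ => 0) (by simp)
  have h2 : Pv C [⟨h.an fun _ => 0, true⟩] := by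
    refine Pv.andI (h.an_gate _ fun _ => Nat.zero_le _) ?_ (by simp [W])
    rintro _ ⟨e, rfl⟩
    exact (h.ctr e).zero
  have h3 : ∑ _e : Fin R, (0 : ℕ) = 0 := by simp
  rw [h3] at h1
  exact h1.two' h2 (by simp [W]) fun α => by simp; tauto

theorem IsMul.nil (h : IsMul C M R c t) (h0 : ∀ e, IsNil C M (c e)) : IsNil C M t := by
  intro T hT
  refine h.elim hT (by simp) fun v hv => ?_
  obtain ⟨e, he⟩ : ∃ e, 1 ≤ v e := by
    by_contra hcon
    push Not at hcon
    have : ∑ e, v e = 0 := sum_eq_zero fun e _ => by have := hcon e; omega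
    omega
  obtain ⟨b, hb⟩ : ∃ b, v e = b + 1 := ⟨v e - 1, by omega⟩
  have h1 := h.anE (v := v) (fun i => (le_of_sum hv i).trans hT) e
  have h2 := h0 e b (by have := le_of_sum hv e; omega)
  rw [hb] at h1
  exact h1.two' h2 (by simp [W]) fun α => by simp; tauto

/-- one more -/
theorem IsMul.up (h : IsMul C M R c t) (h' : IsMul C M R d u) (hs : s.length ≤ 10) {e₀ : Fin R}
    (hrl : ∀ e, e ≠ e₀ → Rl C M s (c e) (d e) 0 0) (h0 : Rl C M s (c e₀) (d e₀) 0 1) :
    Rl C M s t u 0 1 := by
  intro T hT hT1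
  refine h.elim hT (by simp; omega) fun v hv => ?_
  rw [add_zero] at hv
  have hle := le_of_sum hv
  obtain ⟨v', hv'⟩ : ∃ v', v' = Function.update v e₀ (v e₀ + 1) := ⟨_, rfl⟩
  have hsum : ∑ e, v' e = T + 1 := by
    have := sum_update v e₀ (v e₀ + 1)
    rw [← hv'] at this
    omega
  have h1 := h'.intro (v := v') (by omega)
  rw [hsum] at h1
  have h2 : Pv C (⟨h'.an v', true⟩ :: ⟨h.an v, false⟩ :: s) := by
    refine Pv.andI (h'.an_gate v' fun e => (le_of_sum hsum e).trans hT1) ?_
      (by simp [W]; omega)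
    rintro _ ⟨e, rfl⟩
    have h3 := h.anE (v := v) (fun i => (hle i).trans hT) e
    by_cases he : e = e₀
    · subst he
      have h4 := h0 (v e) (by have := hle e; omega) (by have := hle e; omega)
      rw [hv', Function.update_self]
      refine h3.of2 h4 (fun α => ?_) (by simp [W]; omega)
      simp
      tauto
    · have h4 := hrl e he (v e) (by have := hle e; omega) (by have := hle e; omega)
      rw [hv', Function.update_of_ne he]
      refine h3.of2 h4 (fun α => ?_) (by simp [W]; omega)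
      simp
      tauto
  refine h1.of2 h2 (fun α => ?_) (by simp [W]; omega)
  simp
  tauto

/-- one less -/
theorem IsMul.dn (h : IsMul C M R c t) (h' : IsMul C M R d u) (hs : s.length ≤ 10) {e₀ : Fin R}
    (hrl : ∀ e, e ≠ e₀ → Rl C M s (c e) (d e) 0 0) (h0 : Rl C M s (c e₀) (d e₀) 1 0) :
    Rl C M s t u 1 0 := by
  intro T hT1 hT
  refine h.elim hT1 (by simp; omega) fun v hv => ?_
  have hle := le_of_sum hv
  -- the coordinate which is decreased
  obtain ⟨e₁, b, hb, he₁⟩ : ∃ e₁ b, v e₁ = b + 1 ∧ (e₁ = e₀ ∨ v e₀ = 0) := by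
    by_cases h1 : v e₀ = 0
    · obtain ⟨e, he⟩ : ∃ e, 1 ≤ v e := by
        by_contra hcon
        push Not at hcon
        have : ∑ e, v e = 0 := sum_eq_zero fun e _ => by have := hcon e; omega
        omega
      exact ⟨e, v e - 1, by omega, Or.inr h1⟩
    · exact ⟨e₀, v e₀ - 1, by omega, Or.inl rfl⟩
  obtain ⟨v', hv'⟩ : ∃ v', v' = Function.update v e₁ b := ⟨_, rfl⟩
  have hsum : ∑ e, v' e = T := by
    have := sum_update v e₁ b
    rw [← hv'] at this
    omega
  have h1 := h'.intro (v := v') (by omega)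
  rw [hsum] at h1
  have h2 : Pv C (⟨h'.an v', true⟩ :: ⟨h.an v, false⟩ :: s) := by
    refine Pv.andI (h'.an_gate v' fun e => (le_of_sum hsum e).trans hT) ?_
      (by simp [W]; omega)
    rintro _ ⟨e, rfl⟩
    have h3 := h.anE (v := v) (fun i => (hle i).trans hT1) e
    by_cases he : e = e₁
    · subst he
      rw [hv', Function.update_self]
      rw [hb] at h3
      by_cases he0 : e = e₀
      · subst he0
        have h4 := h0 b (by have := hle e; omega) (by have := hle e; omega)
        refine h3.of2 h4 (fun α => ?_) (by simp [W]; omega)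
        simp
        tauto
      · have h4 := hrl e he0 (b + 1) (by have := hle e; omega) (by have := hle e; omega)
        have h5 := (h'.ctr e).anti b (by have := hle e; omega)
        refine h3.of3 h4 h5 (fun α => ?_) (by simp [W]; omega)
        simp
        tauto
    · rw [hv', Function.update_of_ne he]
      by_cases he0 : e = e₀
      · subst he0
        have h6 : v e = 0 := by
          rcases he₁ with h6 | h6
          · exact absurd h6.symm he
          · exact h6
        rw [h6]
        refine (h'.ctr e).zero.of1 (fun α => ?_) (by simp [W]; omega)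
        simp
        tauto
      · have h4 := hrl e he0 (v e) (by have := hle e; omega) (by have := hle e; omega)
        refine h3.of2 h4 (fun α => ?_) (by simp [W]; omega)
        simp
        tauto
  refine h1.of2 h2 (fun α => ?_) (by simp [W]; omega)
  simp
  tauto

/-- a total which grows with the pigeons and is bounded by the holes: contradiction -/
theorem contra_count {m : ℕ} {vr : P → H → C.N} {px : ℕ → P} {hy : ℕ → H}
    {tot : ℕ → ℕ → ℕ → Lit C.N}
    (h0 : Pv C [tot 0 m 0]) (hnil : IsNil C (m + 1) (tot (m + 1) 0))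
    (hup : ∀ s, s < m + 1 → ∀ y, Rl C (m + 1) [⟨vr (px s) y, false⟩] (tot s m) (tot (s + 1) m) 0 1)
    (hdn : ∀ s, s < m → ∀ x, Rl C (m + 1) [⟨vr x (hy s), false⟩] (tot (m + 1) (s + 1))
      (tot (m + 1) s) 1 0)
    (hvr : ∀ x y, C.gate (vr x y) = .var x y)
    {pg : P → C.N} (hpg : ∀ x, C.gate (pg x) = .and {z | ∃ y, z = ⟨vr x y, false⟩})
    {hl : H → C.N} (hhl : ∀ y, C.gate (hl y) = .and {z | ∃ x, z = ⟨vr x y, false⟩}) :
    Pv C [] := by
  have hP : ∀ s, s ≤ m + 1 → Pv C [tot s m s] := by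
    intro s
    induction s with
    | zero => intro _; exact h0
    | succ s ih =>
      intro hs
      have h1 : Pv C [⟨pg (px s), true⟩, tot (s + 1) m (s + 1)] := by
        refine Pv.andI (hpg (px s)) ?_ (by simp [W])
        rintro _ ⟨y, rfl⟩
        have h2 := hup s (by omega) y s (by omega) (by omega)
        rw [add_zero] at h2
        exact (ih (by omega)).two' h2 (by simp [W]) fun α => by simp; tauto
      have h3 : Pv C [⟨pg (px s), false⟩] :=
        Pv.pig (px s) (hpg (px s)) fun y => ⟨_, hvr _ _, y, rfl⟩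
      exact h1.two' h3 (by simp [W]) fun α => by simp; tauto
  have hH : ∀ s, s ≤ m → Pv C [(tot (m + 1) s (s + 1)).neg] := by
    intro s
    induction s with
    | zero => intro _; exact hnil 0 (by omega)
    | succ s ih =>
      intro hs
      have h1 : Pv C [⟨hl (hy s), true⟩, (tot (m + 1) (s + 1) (s + 2)).neg] := by
        refine Pv.andI (hhl (hy s)) ?_ (by simp [W])
        rintro _ ⟨x, rfl⟩
        have h2 := hdn s (by omega) x (s + 1) (by omega) (by omega)
        rw [add_zero] at h2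
        exact (ih (by omega)).two' h2 (by simp [W]) fun α => by simp; tauto
      have h3 : Pv C [⟨hl (hy s), false⟩] :=
        Pv.hol (hy s) (hhl (hy s)) fun x => ⟨_, hvr _ _, x, rfl⟩
      exact h1.two' h3 (by simp [W]) fun α => by simp; tauto
  exact (hP (m + 1) le_rfl).two' (hH m le_rfl) (by simp [W]) fun α => by simp

end Pool.Agent.H63.UD
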