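import Pool.Agent.H63.UD.Circ
import Pool.Agent.H63.YQ.Dq

/-!
# The symmetry of the counting formulas
-/

set_option autoImplicit false
set_option linter.unusedSectionVars false

namespace Pool.Agent.H63.UD

open Pool.Agent.H63.YL Pool.Agent.H63.UB

variable {n g K : ℕ} [Finite {a : Nd n g K // Good a}]

/-- the nodes of the counting formulas of a cell -/
def In (e : Fin (K * K)) : Nd n g K → Prop
  | .top => True
  | .var x y => (x : ℕ) / g = (e : ℕ) / K ∧ (y : ℕ) / g = (e : ℕ) % K
  | .pp e' _ _ _ _ _ => e' = e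
  | .ds e' _ _ _ _ => e' = e
  | _ => False

/-- the colours: the points of the group `i` are named -/
def clr {N : ℕ} (g i : ℕ) (x : Fin N) : ℕ := if (x : ℕ) / g = i then (x : ℕ) + 1 else 0

theorem clr_fix {N g i : ℕ} {σ : Equiv.Perm (Fin N)} (h : ∀ x, clr g i (σ x) = clr g i x)
    {x : Fin N} (hx : (x : ℕ) / g = i) : σ x = x := by
  have h1 := h x
  unfold clr at h1
  rw [if_pos hx] at h1
  split_ifs at h1
  exact Fin.ext (by omega)

theorem in_totL {e : Fin (K * K)} {s s' r a : ℕ} :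
    In e (totL e s s' r a : Lit (Nd n g K)).node := by
  unfold totL
  split_ifs
  · exact trivial
  · exact trivial
  · exact rfl

theorem ea_div (hg : 1 ≤ g) {e : Fin (K * K)} {r : ℕ} (hr : r < g * g) :
    ea g K e r / g = (e : ℕ) / K := by
  have hr1 : r / g < g := (Nat.div_lt_iff_lt_mul hg).2 hr
  unfold ea
  rw [mul_comm, Nat.mul_add_div hg, Nat.div_eq_of_lt hr1, add_zero]

theorem eb_div (hg : 1 ≤ g) {e : Fin (K * K)} {r : ℕ} :
    eb g K e r / g = (e : ℕ) % K := by
  have hr2 : r % g < g := Nat.mod_lt _ hg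
  unfold eb
  rw [mul_comm, Nat.mul_add_div hg, Nat.div_eq_of_lt hr2, add_zero]

theorem in_prL (hg : 1 ≤ g) {e : Fin (K * K)} {s s' r b : ℕ} (hr : r < g * g) :
    In e (prL (pt n g K e s s' r) b : Lit (Nd n g K)).node := by
  rcases b with _ | _ | b
  · cases h : pt n g K e s s' r <;> exact trivial
  · unfold pt
    split_ifs with h
    · exact ⟨ea_div hg hr, eb_div hg⟩
    · exact trivial
  · cases h : pt n g K e s s' r <;> exact trivial

theorem hom_cell (hg : 1 ≤ g) {e : Fin (K * K)} {L r : ℕ}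
    (hr : rare (clr g ((e : ℕ) / K) : Fin (n + 1) → ℕ) L +
      rare (clr g ((e : ℕ) % K) : Fin n → ℕ) L ≤ r) (a : (Cc n g K).N)
    (ha : In e (show {a : Nd n g K // Good a} from a).1) : (Cc n g K).Hom L r a := by
  refine ⟨clr g ((e : ℕ) / K), clr g ((e : ℕ) % K), fun σ τ hσ hτ => ?_, hr⟩
  refine ⟨fun a b => a = b ∧ In e (show {a : Nd n g K // Good a} from a).1, ?_, rfl, ha⟩
  rintro ⟨a, ga⟩ _ ⟨rfl, hIn⟩
  -- nodes with children of the same kind
  have key : ∀ S : Set (Lit (Nd n g K)), gate0 a = .and S → (∀ z ∈ S, In e z.node) →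
      ∃ S' T : Set (Lit (Cc n g K).N), (Cc n g K).gate (⟨a, ga⟩ : {a : Nd n g K // Good a}) = .and S' ∧
        (Cc n g K).gate (⟨a, ga⟩ : {a : Nd n g K // Good a}) = .and T ∧
        (∀ x ∈ S', ∃ y ∈ T, y.pos = x.pos ∧ (x.node = y.node ∧
          In e (show {a : Nd n g K // Good a} from x.node).1)) ∧
        ∀ y ∈ T, ∃ x ∈ S', x.pos = y.pos ∧ (x.node = y.node ∧
          In e (show {a : Nd n g K // Good a} from x.node).1) := by
    intro S hS hin
    have hgt : (Cc n g K).gate (⟨a, ga⟩ : {a : Nd n g K // Good a}) =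
        .and {z | (⟨(show {a : Nd n g K // Good a} from z.node).1, z.pos⟩ : Lit (Nd n g K)) ∈ S} := by
      show resG (gate0 a) = _
      rw [hS]
      rfl
    refine ⟨_, _, hgt, hgt, ?_, ?_⟩
    · intro x hx
      exact ⟨x, hx, rfl, rfl, hin _ hx⟩
    · intro x hx
      exact ⟨x, hx, rfl, rfl, hin _ hx⟩
  cases a with
  | var x y =>
    left
    obtain ⟨h1, h2⟩ := hIn
    refine ⟨x, y, rfl, ?_⟩
    rw [clr_fix hσ h1, clr_fix hτ h2]
    rfl
  | top => exact Or.inr (key ∅ rfl fun z hz => absurd hz (Set.notMem_empty _))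
  | pp e' s s' r a b =>
    obtain rfl : e' = e := hIn
    refine Or.inr (key _ rfl ?_)
    rintro z (rfl | rfl)
    · exact in_totL
    · exact in_prL hg ga.2.2.1
  | ds e' s s' r l =>
    obtain rfl : e' = e := hIn
    refine Or.inr (key _ rfl ?_)
    rintro _ ⟨r', a, b, -, -, rfl⟩
    exact rfl
  | pg x => exact hIn.elim
  | hl y => exact hIn.elim
  | an s s' v => exact hIn.elim
  | sm s s' l => exact hIn.elim

/-- all nodes are built in depth 2 from homogeneous formulas -/
theorem built_all (hg : 1 ≤ g) {L r : ℕ} (hr : ∀ i j : ℕ,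
      rare (clr g i : Fin (n + 1) → ℕ) L + rare (clr g j : Fin n → ℕ) L ≤ r)
    (a : (Cc n g K).N) : (Cc n g K).Built L r 2 a := by
  -- one step
  have step : ∀ (d : ℕ) (a : Nd n g K) (ga : Good a),
      (∀ z ∈ (gate0 a).children, ∀ gz : Good z.node,
        (Cc n g K).Built L r d (⟨z.node, gz⟩ : {a : Nd n g K // Good a})) →
      (Cc n g K).Built L r (d + 1) (⟨a, ga⟩ : {a : Nd n g K // Good a}) := by
    intro d a ga h
    right
    rintro ⟨⟨c, gc⟩, pos⟩ hx
    have hx' : (⟨c, pos⟩ : Lit (Nd n g K)) ∈ (gate0 a).children := by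
      have e : (Cc n g K).gate (⟨a, ga⟩ : {a : Nd n g K // Good a}) = resG (gate0 a) := rfl
      rw [e] at hx
      rcases hg : gate0 a with ⟨i, j⟩ | S
      · rw [hg] at hx
        exact absurd hx (Set.notMem_empty _)
      · rw [hg] at hx
        exact hx
    exact h ⟨c, pos⟩ hx' gc
  have up : ∀ {d : ℕ} {a : (Cc n g K).N}, (Cc n g K).Built L r d a →
      (Cc n g K).Built L r (d + 1) a := by
    intro d
    induction d with
    | zero => intro a h; exact Or.inl h
    | succ d ih =>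
      rintro a (h | h)
      · exact Or.inl h
      · exact Or.inr fun x hx => ih (h x hx)
  have hcell : ∀ (e : Fin (K * K)) (a : Nd n g K) (ga : Good a), In e a →
      (Cc n g K).Built L r 0 (⟨a, ga⟩ : {a : Nd n g K // Good a}) :=
    fun e a ga h => hom_cell hg (hr _ _) _ h
  have hvar : ∀ x y (g' : Good (.var x y : Nd n g K)),
      (Cc n g K).Built L r 1 (⟨.var x y, g'⟩ : {a : Nd n g K // Good a}) :=
    fun x y g' => step 0 _ g' fun z hz => absurd hz (Set.notMem_empty _)
  have han : ∀ s s' v (g' : Good (.an s s' v : Nd n g K)),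
      (Cc n g K).Built L r 1 (⟨.an s s' v, g'⟩ : {a : Nd n g K // Good a}) := by
    intro s s' v g'
    refine step 0 _ g' ?_
    rintro _ ⟨e, rfl⟩ gz
    exact hcell e _ gz in_totL
  obtain ⟨a, ga⟩ : {a : Nd n g K // Good a} := a
  cases a with
  | var x y => exact up (hvar _ _ ga)
  | top => exact up (step 0 _ ga fun z hz => absurd hz (Set.notMem_empty _))
  | pg x =>
    refine step 1 _ ga ?_
    rintro _ ⟨y, rfl⟩ gz
    exact hvar _ _ gz
  | hl y =>
    refine step 1 _ ga ?_
    rintro _ ⟨x, rfl⟩ gz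
    exact hvar _ _ gz
  | pp e s s' i a b => exact up (up (hcell e _ ga rfl))
  | ds e s s' i l => exact up (up (hcell e _ ga rfl))
  | an s s' v => exact up (han _ _ _ ga)
  | sm s s' l =>
    refine step 1 _ ga ?_
    rintro _ ⟨v, -, rfl⟩ gz
    exact han _ _ _ gz

end Pool.Agent.H63.UD
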