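import Pool.Agent.H63.UD.Tot
import Pool.Agent.H63.UD.Card
import Pool.Agent.H63.UD.Sym

/-!
# Refutations with `n / k` named points
-/

set_option autoImplicit false
set_option linter.unusedSectionVars false

namespace Pool.Agent.H63.UD

open Pool.Agent.H63.YL Pool.Agent.H63.UB

theorem card_group (N g i : ℕ) (hg : 1 ≤ g) : {x : Fin N | (x : ℕ) / g = i}.ncard ≤ g := by
  classical
  have h1 : (fun x : Fin N => (x : ℕ)) '' {x : Fin N | (x : ℕ) / g = i} ⊆
      ((Finset.Ico (i * g) (i * g + g) : Finset ℕ) : Set ℕ) := by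
    rintro _ ⟨x, hx, rfl⟩
    have hx' : (x : ℕ) / g = i := hx
    rw [Finset.coe_Ico, Set.mem_Ico, ← hx']
    exact ⟨Nat.div_mul_le_self _ _, Nat.lt_div_mul_add hg⟩
  have h2 := Set.ncard_le_ncard h1 (Finset.finite_toSet _)
  rw [Set.ncard_coe_finset, Nat.card_Ico, Set.ncard_image_of_injective _ Fin.val_injective] at h2
  omega

theorem rare_clr {N g L : ℕ} (i : ℕ) (hg : 1 ≤ g) (hL : L + g ≤ N) :
    rare (clr g i : Fin N → ℕ) L ≤ g := by
  classical
  unfold rare
  refine le_trans (Set.ncard_le_ncard ?_ (Set.toFinite _)) (card_group N g i hg)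
  intro x hx
  by_contra hx'
  have hx0 : ¬ (x : ℕ) / g = i := hx'
  have h1 : {x : Fin N | (x : ℕ) / g = i}ᶜ ⊆ {x' : Fin N | clr g i x' = clr g i x} := by
    intro y hy
    have hy' : ¬ (y : ℕ) / g = i := hy
    show clr g i y = clr g i x
    unfold clr
    rw [if_neg hx0, if_neg hy']
  have h2 := Set.ncard_le_ncard h1 (Set.toFinite _)
  have h3 := Set.ncard_add_ncard_compl {x : Fin N | (x : ℕ) / g = i}
  rw [Nat.card_eq_fintype_card, Fintype.card_fin] at h3
  have h4 := card_group N g i hg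
  have h5 : {x' : Fin N | clr g i x' = clr g i x}.ncard < L := hx
  omega

/-- **Refutations with `n / k` named points.** -/
theorem short {n k : ℕ} (hk : 1 ≤ k) (hn : 4 * k ≤ n) :
    ∃ R : Refutation (Fin (n + 1)) (Fin n),
      (∀ Λ ∈ R.lines, R.C.BuiltLine (n / 2) (n / k) 2 Λ) ∧
      R.size ≤ (n + 2) ^ (5000 * k ^ 2) := by
  obtain ⟨g, hg⟩ : ∃ g, g = n / (2 * k) := ⟨_, rfl⟩
  have hg2 : 2 ≤ g := by
    rw [hg, Nat.le_div_iff_mul_le (by omega)]
    omega
  have hgk : g * (2 * k) ≤ n := by rw [hg]; exact Nat.div_mul_le_self _ _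
  have hgk' : n < (g + 1) * (2 * k) := by
    rw [hg, mul_comm]; exact Nat.lt_mul_div_succ _ (by omega)
  obtain ⟨K, hK⟩ : ∃ K, K = 3 * k := ⟨_, rfl⟩
  have hKn : K ≤ n := by omega
  have h2g : 2 * g ≤ n := by
    calc 2 * g = g * (2 * 1) := by ring
      _ ≤ g * (2 * k) := Nat.mul_le_mul_left _ (Nat.mul_le_mul_left _ hk)
      _ ≤ n := hgk
  have hgn : g ≤ n := by omega
  have hcov : n < K * g := by
    calc n < (g + 1) * (2 * k) := hgk'
      _ = 2 * k * g + 2 * k := by ring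
      _ ≤ 2 * k * g + k * g := by
          have : k * 2 ≤ k * g := Nat.mul_le_mul_left _ hg2
          omega
      _ = K * g := by rw [hK]; ring
  have hrr : 2 * g ≤ n / k := by
    rw [Nat.le_div_iff_mul_le (by omega)]
    calc 2 * g * k = g * (2 * k) := by ring
      _ ≤ n := hgk
  have := finite_good n g K
  have hall : ∀ a : (Cc n g K).N, (Cc n g K).Built (n / 2) (n / k) 2 a := by
    refine built_all (by omega) fun i j => ?_
    have h1 : rare (clr g i : Fin (n + 1) → ℕ) (n / 2) ≤ g := rare_clr i (by omega) (by omega)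
    have h2 : rare (clr g j : Fin n → ℕ) (n / 2) ≤ g := rare_clr j (by omega) (by omega)
    omega
  have hpv : Pv (Cc n g K) [] := contra (by omega) (by omega) hcov
  have he : Ln ([] : List (Lit (Cc n g K).N)) = ∅ := by
    ext x; simp [Ln]
  have hpr : Prov (Cc n g K) ∅ := by rw [← he]; exact hpv
  refine ⟨Rf (Cc n g K) hpr, fun Λ _ => Or.inr fun x _ => hall x.node, ?_⟩
  have h1 := size_Rf (Cc n g K) hpr
  have h2 : Nat.card (Cc n g K).N ≤ (n + 2) ^ (K * K + 12) := card_good hgn hKn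
  refine h1.trans ?_
  obtain ⟨B, hB⟩ : ∃ B, B = n + 2 := ⟨_, rfl⟩
  rw [← hB] at h2 ⊢
  have hB2 : 2 ≤ B := by omega
  have h3 : 2 * Nat.card (Cc n g K).N + 2 ≤ B ^ (K * K + 14) := by
    have h4 : 1 ≤ B ^ (K * K + 12) := Nat.one_le_pow _ _ (by omega)
    calc 2 * Nat.card (Cc n g K).N + 2 ≤ (2 * 2) * B ^ (K * K + 12) := by omega
      _ ≤ (B * B) * B ^ (K * K + 12) := Nat.mul_le_mul_right _ (Nat.mul_le_mul hB2 hB2)
      _ = B ^ (K * K + 14) := by ring
  calc (2 * Nat.card (Cc n g K).N + 2) ^ (W + 1) ≤ (B ^ (K * K + 14)) ^ (W + 1) :=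
        Nat.pow_le_pow_left h3 _
    _ = B ^ ((K * K + 14) * (W + 1)) := (pow_mul _ _ _).symm
    _ ≤ B ^ (5000 * k ^ 2) := by
        refine Nat.pow_le_pow_right (by omega) ?_
        have h5 : 1 ≤ k ^ 2 := Nat.one_le_pow _ _ hk
        have h6 : K * K = 9 * k ^ 2 := by rw [hK]; ring
        rw [h6]
        show (9 * k ^ 2 + 14) * (200 + 1) ≤ _
        omega

end Pool.Agent.H63.UD
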