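import Pool.Agent.H63.UD.Circ

/-!
# Counting with named groups of points
-/

set_option autoImplicit false
set_option linter.unusedSectionVars false

namespace Pool.Agent.H63.UD

open Pool.Agent.H63.YL Pool.Agent.H63.UB

variable {n g K : ℕ} [Finite {a : Nd n g K // Good a}]

theorem mkL_neg (x : Lit (Nd n g K)) : (mkL x).neg = mkL x.neg := rfl

/-- the counter of a pair -/
noncomputable def prc (g K : ℕ) [Finite {a : Nd n g K // Good a}]
    (o : Option (Fin (n + 1) × Fin n)) (b : ℕ) : Lit (Cc n g K).N := mkL (prL o b)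

theorem topI : Pv (Cc n g K) [⟨mk .top, true⟩] := by
  have h : (Cc n g K).gate (mk .top) = .and ∅ := by
    rw [gate_mk (a := (.top : Nd n g K)) trivial rfl, Set.image_empty]
  exact Pv.andI h (fun _ hx => absurd hx (Set.notMem_empty _)) (by simp [W])

theorem prc_zero (o : Option (Fin (n + 1) × Fin n)) :
    prc g K o 0 = ⟨mk .top, true⟩ := rfl

theorem prc_two (o : Option (Fin (n + 1) × Fin n)) (b : ℕ) :
    prc g K o (b + 2) = ⟨mk .top, false⟩ := rfl

theorem prc_none (b : ℕ) : prc g K (none : Option (Fin (n + 1) × Fin n)) (b + 1) =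
    ⟨mk .top, false⟩ := by
  rcases b with _ | b <;> rfl

theorem prc_some (p : Fin (n + 1) × Fin n) : prc g K (some p) 1 =
    ⟨mk (.var p.1 p.2), true⟩ := rfl

variable {s : List (Lit (Cc n g K).N)} {M : ℕ}

theorem prc_ctr (o : Option (Fin (n + 1) × Fin n)) (M : ℕ) : IsCtr (Cc n g K) M (prc g K o) := by
  refine ⟨?_, fun T _ => ?_⟩
  · rw [prc_zero]; exact topI
  · rcases T with _ | T
    · rw [prc_zero]
      exact topI.one' (by simp [W]) fun α => by simp; tauto
    · rw [prc_two]
      exact topI.one' (by simp [W]) fun α => by simp; tauto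

theorem prc_nil (M : ℕ) : IsNil (Cc n g K) M (prc g K (none : Option (Fin (n + 1) × Fin n))) := by
  intro T _
  rw [prc_none]
  exact topI.one' (by simp [W]) fun α => by simp

theorem prc_refl (hs : s.length ≤ 10) (o : Option (Fin (n + 1) × Fin n)) :
    Rl (Cc n g K) M s (prc g K o) (prc g K o) 0 0 := by
  intro T _ _
  refine Pv.of0 (fun α => ?_) (by simp [W]; omega)
  simp
  tauto

theorem prc_mono (hs : s.length ≤ 10) (o : Option (Fin (n + 1) × Fin n)) :
    Rl (Cc n g K) M s (prc g K none) (prc g K o) 0 0 := by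
  intro T _ _
  rcases T with _ | T
  · rw [prc_zero, prc_zero]
    refine topI.of1 (fun α => ?_) (by simp [W]; omega)
    simp
    tauto
  · rw [add_zero, prc_none]
    refine topI.of1 (fun α => ?_) (by simp [W]; omega)
    simp
    tauto

theorem prc_up (hs : s.length ≤ 10) {p : Fin (n + 1) × Fin n}
    (hp : ⟨mk (.var p.1 p.2), false⟩ ∈ s) :
    Rl (Cc n g K) M s (prc g K none) (prc g K (some p)) 0 1 := by
  intro T _ _
  rcases T with _ | T
  · rw [prc_zero, zero_add, prc_some]
    refine Pv.ident (a := mk (.var p.1 p.2)) ?_ ?_ (by simp [W]; omega)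
    · simp
    · exact List.mem_cons_of_mem _ (List.mem_cons_of_mem _ hp)
  · rw [add_zero, prc_none]
    refine topI.of1 (fun α => ?_) (by simp [W]; omega)
    simp
    tauto

theorem prc_dn (hs : s.length ≤ 10) (o : Option (Fin (n + 1) × Fin n)) :
    Rl (Cc n g K) M s (prc g K o) (prc g K none) 1 0 := by
  intro T _ _
  rcases T with _ | T
  · rw [prc_zero]
    refine topI.of1 (fun α => ?_) (by simp [W]; omega)
    simp
    tauto
  · rw [prc_two]
    refine topI.of1 (fun α => ?_) (by simp [W]; omega)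
    simp
    tauto

theorem prc_stay (hs : s.length ≤ 10) {x x' : Fin (n + 1)} {y : Fin n} (hx : x ≠ x')
    (hp : ⟨mk (.var x' y), false⟩ ∈ s) :
    Rl (Cc n g K) M s (prc g K (some (x, y))) (prc g K none) 0 0 := by
  intro T _ _
  rcases T with _ | _ | T
  · rw [prc_zero, prc_zero]
    refine topI.of1 (fun α => ?_) (by simp [W]; omega)
    simp
    tauto
  · rw [zero_add, add_zero, prc_some]
    have h1 : Pv (Cc n g K) [⟨mk (.var x y), false⟩, ⟨mk (.var x' y), false⟩] :=
      Pv.onePigeon hx (gate_mk_var _ _) (gate_mk_var _ _)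
    refine h1.weak ?_ (by simp [W]; omega)
    intro z hz
    simp only [List.mem_cons, List.not_mem_nil, or_false] at hz
    rcases hz with rfl | rfl
    · exact List.mem_cons_self
    · exact List.mem_cons_of_mem _ (List.mem_cons_of_mem _ hp)
  · rw [add_zero, prc_two]
    refine topI.of1 (fun α => ?_) (by simp [W]; omega)
    simp
    tauto

/-! ### The counters of the cells -/

theorem sum_is (e : Fin (K * K)) {s s' r : ℕ} (hs : s ≤ n + 1) (hs' : s' ≤ n)
    (hr : r < g * g) :
    IsSum (Cc n g K) (n + 1) (fun a => mkL (totL e s s' r a))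
      (fun b => prc g K (pt n g K e s s' r) b)
      (fun a => mkL (totL e s s' (r + 1) a)) := by
  have hpr : ∀ a b, a ≤ n + 1 → b ≤ n + 1 → (Cc n g K).gate (mk (.pp e s s' r a b)) =
      .and {z | z = mkL (totL e s s' r a) ∨ z = prc g K (pt n g K e s s' r) b} := by
    intro a b ha hb
    rw [gate_mk (a := (.pp e s s' r a b : Nd n g K)) ⟨hs, hs', hr, ha, hb⟩ rfl]
    congr 1
    ext z
    constructor
    · rintro ⟨_, h | h, rfl⟩
      · exact Or.inl (by rw [h])
      · exact Or.inr (by rw [h]; rfl)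
    · rintro (rfl | rfl)
      · exact ⟨_, Or.inl rfl, rfl⟩
      · exact ⟨_, Or.inr rfl, rfl⟩
  have hsn : ∀ T, T ≤ n + 1 → (Cc n g K).gate (mk (.ds e s s' (r + 1) T)) =
      .and {z | ∃ a b, a + b = T ∧ z = ⟨mk (.pp e s s' r a b), false⟩} := by
    intro T hT
    rw [gate_mk (a := (.ds e s s' (r + 1) T : Nd n g K)) ⟨hs, hs', hr, hT⟩ rfl]
    congr 1
    ext z
    constructor
    · rintro ⟨_, ⟨r', a, b, h1, h2, rfl⟩, rfl⟩
      obtain rfl : r' = r := by omega
      exact ⟨a, b, h2, rfl⟩
    · rintro ⟨a, b, h2, rfl⟩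
      exact ⟨_, ⟨r, a, b, rfl, h2, rfl⟩, rfl⟩
  have htot : ∀ T, mkL (totL e s s' (r + 1) T : Lit (Nd n g K)) =
      ⟨mk (.ds e s s' (r + 1) T), false⟩ := by
    intro T
    unfold totL
    rw [if_neg (by omega)]
    rfl
  refine ⟨fun a b hab => ?_, fun T hT σ hσ hyp => ?_⟩
  · show Pv _ [(mkL (totL e s s' r a)).neg, (prc g K (pt n g K e s s' r) b).neg,
      mkL (totL e s s' (r + 1) (a + b))]
    rw [htot]
    have h1 : Pv (Cc n g K) [⟨mk (.ds e s s' (r + 1) (a + b)), false⟩,
        ⟨mk (.pp e s s' r a b), false⟩] :=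
      Pv.andE (hsn (a + b) hab) ⟨a, b, rfl, rfl⟩
    have h2 : Pv (Cc n g K) [⟨mk (.pp e s s' r a b), true⟩, (mkL (totL e s s' r a)).neg,
        (prc g K (pt n g K e s s' r) b).neg] := by
      refine Pv.andI (hpr a b (by omega) (by omega)) ?_ (by simp [W])
      rintro z (rfl | rfl)
      · exact Pv.zero' (by simp [W]) fun α => by simp; tauto
      · exact Pv.zero' (by simp [W]) fun α => by simp; tauto
    exact h1.two' h2 (by simp [W]) fun α => by simp; tauto
  · show Pv _ ((mkL (totL e s s' (r + 1) T)).neg :: σ)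
    rw [htot]
    refine Pv.andI (hsn T hT) ?_ (by simp [W]; omega)
    rintro _ ⟨a, b, hab, rfl⟩
    have h1 : Pv (Cc n g K) [⟨mk (.pp e s s' r a b), false⟩, mkL (totL e s s' r a)] :=
      Pv.andE (hpr a b (by omega) (by omega)) (Or.inl rfl)
    have h2 : Pv (Cc n g K) [⟨mk (.pp e s s' r a b), false⟩, prc g K (pt n g K e s s' r) b] :=
      Pv.andE (hpr a b (by omega) (by omega)) (Or.inr rfl)
    refine (hyp a b hab).of3 h1 h2 (fun α => ?_) (by simp [W]; omega)
    simp
    tauto

theorem tot_is (e : Fin (K * K)) {s s' : ℕ} (hs : s ≤ n + 1) (hs' : s' ≤ n) :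
    IsTot (Cc n g K) (n + 1) (g * g) (fun r b => prc g K (pt n g K e s s' r) b)
      (fun r a => mkL (totL e s s' r a)) := by
  refine ⟨?_, ?_, fun r hr => prc_ctr _ _, fun r hr => sum_is e hs hs' hr⟩
  · show Pv _ [mkL (totL e s s' 0 0)]
    exact topI
  · intro T _
    show Pv _ [(mkL (totL e s s' 0 (T + 1))).neg]
    have : mkL (totL e s s' 0 (T + 1) : Lit (Nd n g K)) = ⟨mk .top, false⟩ := by
      unfold totL
      rw [if_pos rfl, if_neg (by omega)]
      rfl
    rw [this]
    exact topI.one' (by simp [W]) fun α => by simp [Lit.neg]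

/-- **The counter of all edges.** -/
noncomputable def mul_is {s s' : ℕ} (hs : s ≤ n + 1) (hs' : s' ≤ n) :
    IsMul (Cc n g K) (n + 1) (K * K) (fun e a => mkL (totL e s s' (g * g) a))
      (fun T => ⟨mk (.sm s s' T), false⟩) where
  an := fun v => mk (.an s s' v)
  an_gate := by
    intro v hv
    rw [gate_mk (a := (.an s s' v : Nd n g K)) ⟨hs, hs', hv⟩ rfl]
    congr 1
    ext z
    constructor
    · rintro ⟨_, ⟨e, rfl⟩, rfl⟩
      exact ⟨e, rfl⟩
    · rintro ⟨e, rfl⟩
      exact ⟨_, ⟨e, rfl⟩, rfl⟩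
  t_gate := by
    intro T hT
    refine ⟨_, rfl, ?_⟩
    rw [gate_mk (a := (.sm s s' T : Nd n g K)) ⟨hs, hs', hT⟩ rfl]
    congr 1
    ext z
    constructor
    · rintro ⟨_, ⟨v, h1, rfl⟩, rfl⟩
      exact ⟨v, h1, rfl⟩
    · rintro ⟨v, h1, rfl⟩
      exact ⟨_, ⟨v, h1, rfl⟩, rfl⟩
  ctr := fun e => (tot_is e hs hs').isCtr _ le_rfl

/-! ### The cell and the number of a pair -/

theorem exists_cell (hg : 1 ≤ g) {x y : ℕ} (hx : x < K * g) (hy : y < K * g) :
    ∃ (e : Fin (K * K)) (r : ℕ), r < g * g ∧ ea g K e r = x ∧ eb g K e r = y ∧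
      ∀ (e' : Fin (K * K)) (r' : ℕ), r' < g * g → ea g K e' r' = x → eb g K e' r' = y →
        e' = e ∧ r' = r := by
  have hx1 : x / g < K := (Nat.div_lt_iff_lt_mul hg).2 hx
  have hy1 : y / g < K := (Nat.div_lt_iff_lt_mul hg).2 hy
  have hx2 : x % g < g := Nat.mod_lt _ hg
  have hy2 : y % g < g := Nat.mod_lt _ hg
  have h1 : x / g * K + y / g < K * K := by
    calc x / g * K + y / g < x / g * K + K := by omega
      _ = (x / g + 1) * K := by ring
      _ ≤ K * K := Nat.mul_le_mul_right _ hx1
  have h2 : x % g * g + y % g < g * g := by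
    calc x % g * g + y % g < x % g * g + g := by omega
      _ = (x % g + 1) * g := by ring
      _ ≤ g * g := Nat.mul_le_mul_right _ hx2
  have hK : 0 < K := lt_of_le_of_lt (Nat.zero_le _) hx1
  have e1 : (x / g * K + y / g) / K = x / g := by
    rw [mul_comm, Nat.mul_add_div hK, Nat.div_eq_of_lt hy1, add_zero]
  have e2 : (x / g * K + y / g) % K = y / g := by
    rw [mul_comm, Nat.mul_add_mod, Nat.mod_eq_of_lt hy1]
  have e3 : (x % g * g + y % g) / g = x % g := by
    rw [mul_comm, Nat.mul_add_div hg, Nat.div_eq_of_lt hy2, add_zero]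
  have e4 : (x % g * g + y % g) % g = y % g := by
    rw [mul_comm, Nat.mul_add_mod, Nat.mod_eq_of_lt hy2]
  refine ⟨⟨x / g * K + y / g, h1⟩, x % g * g + y % g, h2, ?_, ?_, ?_⟩
  · unfold ea
    rw [e1, e3, mul_comm]
    exact Nat.div_add_mod x g
  · unfold eb
    rw [e2, e4, mul_comm]
    exact Nat.div_add_mod y g
  · rintro e r hr rfl rfl
    have hr1 : r / g < g := (Nat.div_lt_iff_lt_mul hg).2 hr
    have hr2 : r % g < g := Nat.mod_lt _ hg
    have f1 : ea g K e r / g = (e : ℕ) / K := by
      unfold ea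
      rw [mul_comm, Nat.mul_add_div hg, Nat.div_eq_of_lt hr1, add_zero]
    have f2 : ea g K e r % g = r / g := by
      unfold ea
      rw [mul_comm, Nat.mul_add_mod, Nat.mod_eq_of_lt hr1]
    have f3 : eb g K e r / g = (e : ℕ) % K := by
      unfold eb
      rw [mul_comm, Nat.mul_add_div hg, Nat.div_eq_of_lt hr2, add_zero]
    have f4 : eb g K e r % g = r % g := by
      unfold eb
      rw [mul_comm, Nat.mul_add_mod, Nat.mod_mod]
    refine ⟨Fin.ext ?_, ?_⟩
    · show (e : ℕ) = ea g K e r / g * K + eb g K e r / g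
      rw [f1, f3, Nat.div_add_mod']
    · rw [f2, f4, mul_comm]
      exact (Nat.div_add_mod _ _).symm

/-- **The refutation.** -/
theorem contra (hn : 1 ≤ n) (hg : 1 ≤ g) (hK : n < K * g) : Pv (Cc n g K) [] := by
  refine contra_count (C := Cc n g K) (m := n) (vr := fun x y => mk (.var x y))
    (px := fun s => if h : s < n + 1 then ⟨s, h⟩ else 0)
    (hy := fun s => if h : s < n then ⟨s, h⟩ else ⟨0, hn⟩)
    (tot := fun s s' T => ⟨mk (.sm s s' T), false⟩) ?_ ?_ ?_ ?_ (fun x y => gate_mk_var x y)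
    (pg := fun x => mk (.pg x)) ?_ (hl := fun y => mk (.hl y)) ?_
  · exact (mul_is (by omega) le_rfl).zero
  · refine (mul_is le_rfl (by omega)).nil fun e => ?_
    refine (tot_is e le_rfl (by omega)).isNil (fun r _ => ?_) _ le_rfl
    have h1 : pt n g K e (n + 1) 0 r = none := by
      unfold pt
      rw [dif_neg (by omega)]
    rw [h1]
    exact prc_nil _
  · intro s hs y
    rw [dif_pos hs]
    obtain ⟨e₀, r₀, h1, h2, h3, -⟩ := exists_cell (K := K) hg (x := s) (y := y)
      (by omega) (by have := y.2; omega)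
    have hcell : ∀ e r, Rl (Cc n g K) (n + 1) [⟨mk (.var (⟨s, hs⟩ : Fin (n + 1)) y), false⟩]
        (prc g K (pt n g K e s n r)) (prc g K (pt n g K e (s + 1) n r)) 0 0 := by
      intro e r
      by_cases h4 : ea g K e r = s
      · have h5 : pt n g K e s n r = none := by
          unfold pt
          rw [dif_neg (by omega)]
        rw [h5]
        exact prc_mono (by simp) _
      · have h5 : pt n g K e s n r = pt n g K e (s + 1) n r := by
          unfold pt
          by_cases h6 : (ea g K e r < n + 1 ∧ eb g K e r < n) ∧ ea g K e r < s ∧ eb g K e r < n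
          · rw [dif_pos h6, dif_pos (by omega)]
          · rw [dif_neg h6, dif_neg (by omega)]
        rw [h5]
        exact prc_refl (by simp) _
    refine (mul_is (by omega) le_rfl).up (mul_is (by omega) le_rfl) (e₀ := e₀) (by simp) ?_ ?_
    · intro e _
      exact (tot_is e (by omega) le_rfl).rl_mono (tot_is e (by omega) le_rfl) (by simp) le_rfl
        fun r _ => hcell e r
    · refine (tot_is e₀ (by omega) le_rfl).rl_up (tot_is e₀ (by omega) le_rfl) (by simp)
        (r₀ := r₀) h1 (fun r _ _ => hcell e₀ r) ?_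
      have h5 : pt n g K e₀ s n r₀ = none := by
        unfold pt
        rw [dif_neg (by omega)]
      have h6 : pt n g K e₀ (s + 1) n r₀ = some (⟨s, hs⟩, y) := by
        unfold pt
        rw [dif_pos (by have := y.2; omega)]
        congr 1
        exact Prod.ext (Fin.ext h2) (Fin.ext h3)
      rw [h5, h6]
      exact prc_up (by simp) (by simp)
  · intro s hs x
    rw [dif_pos hs]
    obtain ⟨e₀, r₀, h1, h2, h3, huniq⟩ := exists_cell (K := K) hg (x := x) (y := s)
      (by have := x.2; omega) (by omega)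
    have hcell : ∀ e r, r < g * g → (e ≠ e₀ ∨ r ≠ r₀) →
        Rl (Cc n g K) (n + 1) [⟨mk (.var x (⟨s, hs⟩ : Fin n)), false⟩]
          (prc g K (pt n g K e (n + 1) (s + 1) r)) (prc g K (pt n g K e (n + 1) s r)) 0 0 := by
      intro e r hr hne
      by_cases h4 : eb g K e r = s
      · have h5 : pt n g K e (n + 1) s r = none := by
          unfold pt
          rw [dif_neg (by omega)]
        rw [h5]
        by_cases h6 : ea g K e r < n + 1
        · have h7 : ea g K e r ≠ x := by
            intro h7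
            obtain ⟨h8, h9⟩ := huniq e r hr h7 h4
            rcases hne with h10 | h10
            · exact h10 h8
            · exact h10 h9
          have h8 : pt n g K e (n + 1) (s + 1) r = some (⟨ea g K e r, h6⟩, ⟨s, hs⟩) := by
            unfold pt
            rw [dif_pos (by omega)]
            congr 1
            exact Prod.ext rfl (Fin.ext h4)
          rw [h8]
          refine prc_stay (x' := x) (by simp) ?_ (by simp)
          intro h9
          exact h7 (congrArg Fin.val h9)
        · have h8 : pt n g K e (n + 1) (s + 1) r = none := by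
            unfold pt
            rw [dif_neg (by omega)]
          rw [h8]
          exact prc_refl (by simp) _
      · have h5 : pt n g K e (n + 1) (s + 1) r = pt n g K e (n + 1) s r := by
          unfold pt
          by_cases h6 : (ea g K e r < n + 1 ∧ eb g K e r < n) ∧ ea g K e r < n + 1 ∧ eb g K e r < s
          · rw [dif_pos h6, dif_pos (by omega)]
          · rw [dif_neg h6, dif_neg (by omega)]
        rw [h5]
        exact prc_refl (by simp) _
    refine (mul_is le_rfl (by omega)).dn (mul_is le_rfl (by omega)) (e₀ := e₀) (by simp) ?_ ?_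
    · intro e he
      exact (tot_is e le_rfl (by omega)).rl_mono (tot_is e le_rfl (by omega)) (by simp) le_rfl
        fun r hr => hcell e r hr (Or.inl he)
    · refine (tot_is e₀ le_rfl (by omega)).rl_dn (tot_is e₀ le_rfl (by omega)) (by simp)
        (r₀ := r₀) h1 (fun r hr hne => hcell e₀ r hr (Or.inr hne)) ?_
      have h5 : pt n g K e₀ (n + 1) s r₀ = none := by
        unfold pt
        rw [dif_neg (by omega)]
      rw [h5]
      exact prc_dn (by simp) _
  · intro x
    rw [gate_mk (a := (.pg x : Nd n g K)) trivial rfl]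
    congr 1
    ext z
    constructor
    · rintro ⟨_, ⟨y, rfl⟩, rfl⟩
      exact ⟨y, rfl⟩
    · rintro ⟨y, rfl⟩
      exact ⟨_, ⟨y, rfl⟩, rfl⟩
  · intro y
    rw [gate_mk (a := (.hl y : Nd n g K)) trivial rfl]
    congr 1
    ext z
    constructor
    · rintro ⟨_, ⟨x, rfl⟩, rfl⟩
      exact ⟨x, rfl⟩
    · rintro ⟨x, rfl⟩
      exact ⟨_, ⟨x, rfl⟩, rfl⟩

end Pool.Agent.H63.UD
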